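import Pool.Agent.H26.LP.Stm
import Pool.Agent.H50.SM.Hvy

/-!
# Project LP (helper26), module HVX: heavy barriers give bounded point evaluations
-/

set_option autoImplicit false
set_option linter.unusedSectionVars false
set_option linter.unusedVariables false

namespace Pool.Agent.H41.LP

open MeasureTheory Set Metric Filter Topology
open scoped InnerProductSpace ENNReal NNReal ComplexConjugate ContDiff
open Pool.Agent.Y271.RO (db ht)
open Pool.Agent.Q130.TR
open Pool.Agent.H50.SM.HVY (eval_le)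
open Pool.Agent.H26.LP

/-- **Module HVX.** Heavy barriers give bounded point evaluations. -/
theorem hvx : S_HVX := by
  intro E _ _ T U y₀ W hWm hW01 hup a τ r B hτ hτr hB0 hB hcut
  obtain ⟨Θ, g, C₁, c1, c2, c3, c4, c5, c6, c7, c8, c9⟩ := hcut
  have hPOM := Pool.Agent.Y839.RO.main
  have hC₁ : 0 ≤ C₁ := (norm_nonneg _).trans (c5 0 a)
  have hCO : ∀ n, Pool.Agent.Y941.RO.CO (Θ n) a τ r := fun n =>
    ⟨(c1 n).of_le (by exact_mod_cast le_top), c2 n, c3 n⟩
  refine ⟨C₁ * B / (Real.pi * τ), fun p => ?_⟩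
  obtain ⟨y, hy⟩ : ∃ y, y = Polynomial.aeval T p y₀ := ⟨_, rfl⟩
  rw [← hy]
  -- the supremum of the polynomial
  obtain ⟨M, hM⟩ := (isCompact_closedBall a r).exists_bound_of_continuousOn
    (f := fun z : ℂ => p.eval z) (p.continuous.continuousOn)
  have hM' : ∀ z, ‖z - a‖ ≤ r → ‖p.eval z‖ ≤ M := fun z hz => hM z (by
    rwa [mem_closedBall, dist_eq_norm])
  have hdbm : ∀ n, Measurable (db (Θ n)) := fun n =>
    (hPOM.2.2.2.2.1 (Θ n) (hCO n).smooth).measurable
  have hpm : Measurable fun z : ℂ => p.eval z := p.continuous.measurable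
  have hWc : Measurable fun z => (W z : ℂ) := Complex.measurable_ofReal.comp hWm
  -- the pointwise bound
  have hpt : ∀ n z, ‖p.eval z * db (Θ n) z * (z - a)⁻¹‖ₑ ≤
      ENNReal.ofReal τ⁻¹ * (ENNReal.ofReal C₁ *
        (ball a r).indicator (fun z => ENNReal.ofReal (‖p.eval z‖ * W z)) z +
        ENNReal.ofReal M * ‖(W z : ℂ) * g n z - db (Θ n) z‖ₑ) := by
    intro n z
    by_cases h1 : z ∈ ball a τ
    · rw [(hCO n).db_in hPOM z h1]
      simp
    by_cases h2 : r < ‖z - a‖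
    · rw [(hCO n).db_out hPOM z h2]
      simp
    rw [mem_ball, dist_eq_norm, not_lt] at h1
    rw [not_lt] at h2
    have e1 : ‖(z - a)⁻¹‖ₑ ≤ ENNReal.ofReal τ⁻¹ := by
      rw [← ofReal_norm, norm_inv]
      exact ENNReal.ofReal_le_ofReal (inv_anti₀ hτ h1)
    have e2 : ‖db (Θ n) z‖ₑ ≤ ‖(W z : ℂ) * g n z‖ₑ + ‖(W z : ℂ) * g n z - db (Θ n) z‖ₑ := by
      calc ‖db (Θ n) z‖ₑ = ‖(W z : ℂ) * g n z - ((W z : ℂ) * g n z - db (Θ n) z)‖ₑ := by
            congr 1; ring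
        _ ≤ _ := enorm_sub_le
    have e3 : ‖p.eval z‖ₑ * ‖(W z : ℂ) * g n z‖ₑ ≤ ENNReal.ofReal C₁ *
        (ball a r).indicator (fun z => ENNReal.ofReal (‖p.eval z‖ * W z)) z := by
      by_cases h3 : z ∈ ball a r
      · rw [indicator_of_mem h3, ← ofReal_norm, ← ofReal_norm, ← ENNReal.ofReal_mul (norm_nonneg _),
          ← ENNReal.ofReal_mul hC₁]
        refine ENNReal.ofReal_le_ofReal ?_
        rw [norm_mul, Complex.norm_real, Real.norm_of_nonneg (hW01 z).1]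
        have h4 := c5 n z
        have h5 : 0 ≤ ‖p.eval z‖ * W z := mul_nonneg (norm_nonneg _) (hW01 z).1
        nlinarith [mul_le_mul_of_nonneg_left h4 h5]
      · rw [mem_ball, dist_eq_norm, not_lt] at h3
        rw [c7 n z h3]
        simp
    have e4 : ‖p.eval z‖ₑ ≤ ENNReal.ofReal M := by
      rw [← ofReal_norm]
      exact ENNReal.ofReal_le_ofReal (hM' z h2)
    rw [enorm_mul, enorm_mul]
    calc ‖p.eval z‖ₑ * ‖db (Θ n) z‖ₑ * ‖(z - a)⁻¹‖ₑ
        ≤ ‖p.eval z‖ₑ * (‖(W z : ℂ) * g n z‖ₑ + ‖(W z : ℂ) * g n z - db (Θ n) z‖ₑ) *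
            ENNReal.ofReal τ⁻¹ := by gcongr
      _ = ENNReal.ofReal τ⁻¹ * (‖p.eval z‖ₑ * ‖(W z : ℂ) * g n z‖ₑ +
            ‖p.eval z‖ₑ * ‖(W z : ℂ) * g n z - db (Θ n) z‖ₑ) := by ring
      _ ≤ _ := by gcongr
  have hind : Measurable ((ball a r).indicator fun z => ENNReal.ofReal (‖p.eval z‖ * W z)) :=
    ((hpm.norm.mul hWm).ennreal_ofReal).indicator measurableSet_ball
  have hint : ∀ n, ENNReal.ofReal (Real.pi * ‖p.eval a‖) ≤
      ENNReal.ofReal τ⁻¹ * (ENNReal.ofReal C₁ * ENNReal.ofReal (B * ‖y‖) +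
        ENNReal.ofReal M * ∫⁻ z, ‖(W z : ℂ) * g n z - db (Θ n) z‖ₑ) := by
    intro n
    refine (eval_le hτ (hCO n) p).trans ((lintegral_mono fun z => hpt n z).trans ?_)
    have m1 : Measurable fun z => ‖(W z : ℂ) * g n z - db (Θ n) z‖ₑ :=
      ((hWc.mul (c4 n)).sub (hdbm n)).enorm
    have m2 : Measurable fun z => ENNReal.ofReal C₁ *
        (ball a r).indicator (fun z => ENNReal.ofReal (‖p.eval z‖ * W z)) z := hind.const_mul _
    have m3 : Measurable fun z => ENNReal.ofReal M * ‖(W z : ℂ) * g n z - db (Θ n) z‖ₑ :=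
      m1.const_mul _
    have m4 : Measurable fun z => (ENNReal.ofReal C₁ *
        (ball a r).indicator (fun z => ENNReal.ofReal (‖p.eval z‖ * W z)) z +
        ENNReal.ofReal M * ‖(W z : ℂ) * g n z - db (Θ n) z‖ₑ) := m2.add m3
    rw [lintegral_const_mul _ m4, lintegral_add_left m2, lintegral_const_mul _ hind,
      lintegral_const_mul _ m1, lintegral_indicator measurableSet_ball]
    have h5 : ∫⁻ z in ball a r, ENNReal.ofReal (‖p.eval z‖ * W z) ≤
        ENNReal.ofReal (B * ‖y‖) := by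
      refine le_trans ?_ (hB y)
      refine lintegral_mono_ae ?_
      refine ae_restrict_of_ae ?_
      filter_upwards [hup p] with z hz
      rw [hy]
      exact ENNReal.ofReal_le_ofReal hz
    gcongr
  have hlim : Tendsto (fun n => ENNReal.ofReal τ⁻¹ * (ENNReal.ofReal C₁ * ENNReal.ofReal (B * ‖y‖) +
        ENNReal.ofReal M * ∫⁻ z, ‖(W z : ℂ) * g n z - db (Θ n) z‖ₑ)) atTop
      (𝓝 (ENNReal.ofReal τ⁻¹ * (ENNReal.ofReal C₁ * ENNReal.ofReal (B * ‖y‖) +
        ENNReal.ofReal M * 0))) := by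
    refine ENNReal.Tendsto.const_mul ?_ (Or.inr ENNReal.ofReal_ne_top)
    exact tendsto_const_nhds.add (ENNReal.Tendsto.const_mul c9 (Or.inr ENNReal.ofReal_ne_top))
  have hfin := ge_of_tendsto' hlim hint
  rw [mul_zero, add_zero, ← ENNReal.ofReal_mul hC₁, ← ENNReal.ofReal_mul (by positivity)] at hfin
  have hfin' := (ENNReal.ofReal_le_ofReal_iff (by positivity)).1 hfin
  have hpi := Real.pi_pos
  rw [div_mul_eq_mul_div, le_div_iff₀ (by positivity)]
  have h6 : τ⁻¹ * (C₁ * (B * ‖y‖)) * τ = C₁ * B * ‖y‖ := by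
    field_simp
  calc ‖p.eval a‖ * (Real.pi * τ) = (Real.pi * ‖p.eval a‖) * τ := by ring
    _ ≤ τ⁻¹ * (C₁ * (B * ‖y‖)) * τ := mul_le_mul_of_nonneg_right hfin' hτ.le
    _ = _ := h6

end Pool.Agent.H41.LP
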